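import Pool.Agent.V11259.RatE

/-!
# None of the three candidate rational cones is minimal
-/

namespace Pool.Agent.Results.MP_f1c4ef_lc.ThreeNotMinimal

open Pool.Agent.V11259.Rat

/-- A family of languages; the alphabets are the finite sets `Fin n`. -/
def Family : Type := ∀ n : ℕ, Set (List (Fin n)) → Prop

/-- A rational cone: a family which contains a nonempty language and is closed under images by
finite transducers. -/
def IsCone (C : Family) : Prop :=
  (∃ (n : ℕ) (L : Set (List (Fin n))), C n L ∧ L.Nonempty) ∧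
  ∀ (n m : ℕ) (t : Transducer (Fin n) (Fin m)) (L : Set (List (Fin n))),
    C n L → C m (image t L)

/-- `T L` is the smallest rational cone containing `L` (for `L` nonempty). -/
def T {n : ℕ} (L : Set (List (Fin n))) : Family :=
  fun m L' => ∀ C : Family, IsCone C → C n L → C m L'

/-- The family of rational (regular) languages: accepted by a deterministic finite automaton. -/
def Rat : Family := fun n L =>
  ∃ (σ : Type) (_ : Fintype σ) (M : DFA (Fin n) σ), ∀ w, w ∈ L ↔ M.eval w ∈ M.accept

/-- inclusion of families -/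
def Incl (C D : Family) : Prop := ∀ (n : ℕ) (L : Set (List (Fin n))), C n L → D n L

/-- proper inclusion of families -/
def ProperIncl (C D : Family) : Prop := Incl C D ∧ C ≠ D

theorem T_iff {n m : ℕ} (L : Set (List (Fin n))) (hL : L.Nonempty) (L' : Set (List (Fin m))) :
    T L m L' ↔ ∃ t : Transducer (Fin n) (Fin m), L' = image t L := by
  constructor
  · intro h
    refine h (fun m L' => ∃ t : Transducer (Fin n) (Fin m), L' = image t L) ?_
      ⟨idt (Fin n), (image_idt L).symm⟩
    refine ⟨⟨n, L, ⟨idt (Fin n), (image_idt L).symm⟩, hL⟩, ?_⟩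
    rintro a b t M ⟨s, rfl⟩
    exact ⟨comp s t, (image_comp s t L).symm⟩
  · rintro ⟨t, rfl⟩ C hC hL
    exact hC.2 n m t L hL

theorem T_self {n : ℕ} (L : Set (List (Fin n))) : T L n L := fun _ _ h => h

theorem T_cone {n : ℕ} (L : Set (List (Fin n))) (hL : L.Nonempty) : IsCone (T L) :=
  ⟨⟨n, L, T_self L, hL⟩, fun a b t K hK C hC h => hC.2 a b t K (hK C hC h)⟩

/-- the transducer which ignores its input and writes a word accepted by `M` -/
def ign {n m : ℕ} {σ : Type} [Fintype σ] (M : DFA (Fin m) σ) : Transducer (Fin n) (Fin m) where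
  Q := σ
  fin := inferInstance
  tr q x y q' := (y = none ∧ q' = q) ∨ (∃ b, x = none ∧ y = some b ∧ q' = M.step q b)
  start := {M.start}
  final := M.accept

theorem ign_inv {n m : ℕ} {σ : Type} [Fintype σ] (M : DFA (Fin m) σ)
    {q q' : (ign (n := n) M).Q} {u : List (Fin n)} {v : List (Fin m)}
    (h : Run (ign M) q u v q') : q' = M.evalFrom q v := by
  induction h with
  | nil q => rfl
  | @cons q q1 q2 x y u v hs hr ih =>
    rcases hs with ⟨rfl, rfl⟩ | ⟨b, rfl, rfl, rfl⟩
    · exact ih
    · exact ih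

theorem ign_read {n m : ℕ} {σ : Type} [Fintype σ] (M : DFA (Fin m) σ) (q : σ)
    (u : List (Fin n)) : Run (ign M) q u [] q := by
  induction u with
  | nil => exact Run.nil (t := ign M) q
  | cons a u ih =>
    exact Run.cons (t := ign M) (q := q) (q1 := q) (x := some a) (y := none)
      (Or.inl ⟨rfl, rfl⟩) ih

theorem ign_write {n m : ℕ} {σ : Type} [Fintype σ] (M : DFA (Fin m) σ) (v : List (Fin m)) :
    ∀ (q : σ) (u : List (Fin n)), Run (ign M) q u v (M.evalFrom q v) := by
  induction v with
  | nil => intro q u; exact ign_read M q u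
  | cons b v ih =>
    intro q u
    exact Run.cons (t := ign M) (q := q) (q1 := M.step q b) (x := none) (y := some b)
      (Or.inr ⟨b, rfl, rfl, rfl⟩) (ih (M.step q b) u)

/-- every cone contains the rational languages -/
theorem rat_incl {C : Family} (hC : IsCone C) : Incl Rat C := by
  obtain ⟨⟨n, K, hK, u, hu⟩, hcl⟩ := hC
  rintro m L ⟨σ, hσ, M, hM⟩
  have h : L = image (ign (n := n) M) K := by
    ext v
    rw [hM]
    constructor
    · intro hv
      exact ⟨u, hu, M.start, rfl, _, hv, ign_write M v M.start u⟩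
    · rintro ⟨u', -, q, hq, q', hq', hr⟩
      have hq0 : q = M.start := hq
      have := ign_inv M hr
      rw [hq0] at this
      rw [this] at hq'
      exact hq'
  rw [h]
  exact hcl n m _ K hK

theorem between {s : Set (List (Fin 2))} (hs : s.Nonempty) {L : Set (List (Fin 3))}
    (hL : L.Nonempty) (t0 : Transducer (Fin 2) (Fin 3)) (h0 : image t0 s = L)
    (hreg : ∀ (σ : Type) (_ : Fintype σ) (M : DFA (Fin 3) σ),
      (∀ w, w ∈ L ↔ M.eval w ∈ M.accept) → False)
    (hcore : ∀ t : Transducer (Fin 3) (Fin 2), image t L = s → False) :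
    ∃ M : Family, IsCone M ∧ ProperIncl Rat M ∧ ProperIncl M (T s) := by
  have hT : T s 3 L := (T_iff _ hs _).2 ⟨t0, h0.symm⟩
  refine ⟨T L, T_cone L hL, ⟨rat_incl (T_cone L hL), ?_⟩, ?_, ?_⟩
  · intro h
    have h1 : Rat 3 L := by rw [h]; exact T_self L
    obtain ⟨σ, hσ, M, hM⟩ := h1
    exact hreg σ hσ M hM
  · intro m K hK C hC h
    exact hK C hC (hT C hC h)
  · intro h
    have h1 : T L 2 s := by rw [h]; exact T_self s
    obtain ⟨t, ht⟩ := (T_iff _ hL _).1 h1
    exact hcore t ht.symm

/-- For each of the languages `s_< = {a^m b^n : n ≤ m}`, `s_≠ = {a^m b^n : n ≠ m}` and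
`s_> = {a^m b^n : n ≥ m}`, some rational cone lies strictly between the family of rational
languages and the rational cone generated by the language; hence none of the three cones is a
minimal rational cone. -/
theorem result :
    (∃ M : Family, IsCone M ∧ ProperIncl Rat M ∧ ProperIncl M (T (sR fun m n => n ≤ m))) ∧
    (∃ M : Family, IsCone M ∧ ProperIncl Rat M ∧ ProperIncl M (T (sR fun m n => n ≠ m))) ∧
    (∃ M : Family, IsCone M ∧ ProperIncl Rat M ∧ ProperIncl M (T (sR fun m n => n ≥ m))) := by
  refine ⟨?_, ?_, ?_⟩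
  · exact between ⟨_, sR_mem.2 (le_refl 0)⟩ ⟨_, (Kp_mem (i := 0) (j := 0) (k := 0)).2 (Or.inl (le_refl 0))⟩ _
      image_lt
      (fun σ _ M hM => not_regular_lt M hM) core_lt
  · exact between (s := sNe) ⟨_, 1, 0, by decide, rfl⟩ (L := L3) ⟨[0], by simp [L3]⟩ U image_U
      (fun σ _ M hM => not_regular M hM) core
  · exact between ⟨_, sR_mem.2 (le_refl 0)⟩ ⟨_, (Kp_mem (i := 0) (j := 0) (k := 0)).2 (Or.inl (le_refl 0))⟩ _
      image_gt
      (fun σ _ M hM => not_regular_gt M hM) core_gt

end Pool.Agent.Results.MP_f1c4ef_lc.ThreeNotMinimal
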